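import Pool.Agent.V5helper19.QC.Stm

/-! Project QC, job MEAN1 -/

set_option autoImplicit false

open Finset

namespace V5helper5.QC

open V5helper19.QC

/-- the real form of `LD` -/
noncomputable def LR (n : ℕ) (α : ℝ) : ℝ :=
  ∑ j ∈ Icc 2 n, (((n + j : ℕ) : ℝ) * (1 / (Real.exp (((n + j : ℕ) : ℝ) * α) - 1)) -
    (j : ℝ) * (1 / (Real.exp ((j : ℝ) * α) - 1)))

theorem LD_eq (n : ℕ) (α : ℝ) : LD n (α : ℂ) = ((LR n α : ℝ) : ℂ) := by
  unfold LD LR bb
  push_cast
  rfl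

theorem LR_cont (n : ℕ) : ContinuousOn (fun α => -LR n α) (Set.Ioi 0) := by
  have h1 : ∀ m : ℕ, 1 ≤ m →
      ContinuousOn (fun α : ℝ => (m : ℝ) * (1 / (Real.exp ((m : ℝ) * α) - 1))) (Set.Ioi 0) := by
    intro m hm
    refine ContinuousOn.mul continuousOn_const (ContinuousOn.div continuousOn_const ?_ ?_)
    · exact (Continuous.continuousOn (by fun_prop))
    · intro x hx
      have hx0 : (0 : ℝ) < x := hx
      have hm0 : (0 : ℝ) < m := by exact_mod_cast hm
      have : 1 < Real.exp ((m : ℝ) * x) := Real.one_lt_exp_iff.2 (by positivity)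
      linarith
  refine ContinuousOn.neg ?_
  unfold LR
  refine continuousOn_finsetSum _ fun j hj => ?_
  rw [Finset.mem_Icc] at hj
  exact (h1 (n + j) (by omega)).sub (h1 j (by omega))

theorem b_lower {x : ℝ} (h0 : 0 < x) (h1 : x ≤ 1) : 1 / x - 1 / 2 ≤ 1 / (Real.exp x - 1) := by
  have h2 := Real.exp_bound' h0.le h1 (n := 3) (by norm_num)
  have h3 : Real.exp x ≤ 1 + x + x ^ 2 / 2 + 2 / 9 * x ^ 3 := by
    refine h2.trans (le_of_eq ?_)
    simp [Finset.sum_range_succ, Nat.factorial]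
    ring
  have h4 : 1 < Real.exp x := Real.one_lt_exp_iff.2 h0
  have h5 : 0 < Real.exp x - 1 := by linarith
  rw [le_div_iff₀ h5]
  have h6 : 1 / x - 1 / 2 = (2 - x) / (2 * x) := by field_simp
  rw [h6, div_mul_eq_mul_div, div_le_one (by positivity)]
  have h7 : (2 - x) * (Real.exp x - 1) ≤ (2 - x) * (x + x ^ 2 / 2 + 2 / 9 * x ^ 3) := by
    refine mul_le_mul_of_nonneg_left ?_ (by linarith)
    linarith
  refine h7.trans ?_
  have h8 : 0 ≤ x ^ 3 := by positivity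
  have h9 : 0 ≤ x ^ 4 := by positivity
  nlinarith

theorem b_upper {y : ℝ} (h0 : 0 < y) : 1 / (Real.exp y - 1) ≤ 1 / y - 1 / 2 + y / 4 := by
  have h1 := Real.quadratic_le_exp_of_nonneg h0.le
  have h2 : 0 < y + y ^ 2 / 2 := by positivity
  have h3 : y + y ^ 2 / 2 ≤ Real.exp y - 1 := by linarith
  refine (one_div_le_one_div_of_le h2 h3).trans ?_
  have h4 : 1 / y - 1 / 2 + y / 4 = (4 - 2 * y + y ^ 2) / (4 * y) := by
    field_simp
    ring
  rw [h4, div_le_div_iff₀ h2 (by positivity)]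
  have h5 : 0 ≤ y ^ 4 := by positivity
  nlinarith

theorem t_MEAN1 : S_MEAN1 := by
  intro n k hn hk hkn
  have hnr : (2 : ℝ) ≤ n := by exact_mod_cast hn
  set v : ℝ := min k ((n : ℝ) * ((n : ℝ) - 1) / 2 - 1 / 2) with hv
  have hnn : (1 : ℝ) ≤ (n : ℝ) * ((n : ℝ) - 1) / 2 := by nlinarith
  have hv0 : 0 < v := lt_min hk (by linarith)
  have hv1 : v ≤ (n : ℝ) * ((n : ℝ) - 1) / 2 - 1 / 2 := min_le_right _ _
  have hvk : v ≤ k := min_le_left _ _
  have hkv : k - 1 ≤ v := le_min (by linarith) (by linarith)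
  have hcard : ((Icc 2 n).card : ℝ) = (n : ℝ) - 1 := by
    rw [Nat.card_Icc]
    have : n + 1 - 2 = n - 1 := by omega
    rw [this, Nat.cast_sub (by omega)]
    norm_num
  -- small alpha
  set a1 : ℝ := 1 / (2 * (n : ℝ) ^ 2 * ((n : ℝ) - 1)) with ha1
  have hn1 : (0 : ℝ) < (n : ℝ) - 1 := by linarith
  have ha10 : 0 < a1 := by positivity
  have h1 : v ≤ -LR n a1 := by
    have h2 : ∀ j ∈ Icc 2 n, (n : ℝ) / 2 - (n : ℝ) ^ 2 * a1 ≤
        -(((n + j : ℕ) : ℝ) * (1 / (Real.exp (((n + j : ℕ) : ℝ) * a1) - 1)) -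
          (j : ℝ) * (1 / (Real.exp ((j : ℝ) * a1) - 1))) := by
      intro j hj
      rw [Finset.mem_Icc] at hj
      have hj0 : (2 : ℝ) ≤ j := by exact_mod_cast hj.1
      have hjn : (j : ℝ) ≤ n := by exact_mod_cast hj.2
      have hc : ((n + j : ℕ) : ℝ) = n + j := by push_cast; ring
      rw [hc]
      have hna : (n : ℝ) * a1 ≤ 1 / 4 := by
        rw [ha1]
        rw [mul_one_div, div_le_div_iff₀ (by positivity) (by norm_num)]
        nlinarith [mul_pos (show (0 : ℝ) < n by linarith) hn1]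
      have hja : (j : ℝ) * a1 ≤ 1 := by nlinarith
      have h3 := b_lower (x := (j : ℝ) * a1) (by positivity) hja
      have h4 := b_upper (y := ((n : ℝ) + j) * a1) (by positivity)
      have h5 : (j : ℝ) * (1 / ((j : ℝ) * a1) - 1 / 2) ≤
          (j : ℝ) * (1 / (Real.exp ((j : ℝ) * a1) - 1)) :=
        mul_le_mul_of_nonneg_left h3 (by positivity)
      have h6 : ((n : ℝ) + j) * (1 / (Real.exp (((n : ℝ) + j) * a1) - 1)) ≤
          ((n : ℝ) + j) * (1 / (((n : ℝ) + j) * a1) - 1 / 2 + ((n : ℝ) + j) * a1 / 4) :=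
        mul_le_mul_of_nonneg_left h4 (by positivity)
      have h7 : (j : ℝ) * (1 / ((j : ℝ) * a1) - 1 / 2) = 1 / a1 - j / 2 := by
        field_simp
      have h8 : ((n : ℝ) + j) * (1 / (((n : ℝ) + j) * a1) - 1 / 2 + ((n : ℝ) + j) * a1 / 4) =
          1 / a1 - ((n : ℝ) + j) / 2 + ((n : ℝ) + j) ^ 2 * a1 / 4 := by
        have : (n : ℝ) + j ≠ 0 := by positivity
        field_simp
      have h9 : ((n : ℝ) + j) ^ 2 * a1 / 4 ≤ (n : ℝ) ^ 2 * a1 := by
        have : ((n : ℝ) + j) ^ 2 ≤ 4 * (n : ℝ) ^ 2 := by nlinarith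
        nlinarith
      linarith
    have h10 : (n : ℝ) * ((n : ℝ) - 1) / 2 - 1 / 2 =
        ∑ _j ∈ Icc 2 n, ((n : ℝ) / 2 - (n : ℝ) ^ 2 * a1) := by
      rw [Finset.sum_const, nsmul_eq_mul, hcard, ha1]
      have : (n : ℝ) ≠ 0 := by positivity
      field_simp
    refine hv1.trans ?_
    rw [h10]
    unfold LR
    rw [← Finset.sum_neg_distrib]
    exact Finset.sum_le_sum h2
  -- large alpha
  set a2 : ℝ := ((n : ℝ) - 1) / v with ha2
  have ha20 : 0 < a2 := by positivity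
  have h2 : -LR n a2 ≤ v := by
    have h3 : ∀ j ∈ Icc 2 n,
        -(((n + j : ℕ) : ℝ) * (1 / (Real.exp (((n + j : ℕ) : ℝ) * a2) - 1)) -
          (j : ℝ) * (1 / (Real.exp ((j : ℝ) * a2) - 1))) ≤ 1 / a2 := by
      intro j hj
      rw [Finset.mem_Icc] at hj
      have hj0 : (2 : ℝ) ≤ j := by exact_mod_cast hj.1
      have hc : ((n + j : ℕ) : ℝ) = n + j := by push_cast; ring
      rw [hc]
      have h4 : 0 ≤ ((n : ℝ) + j) * (1 / (Real.exp (((n : ℝ) + j) * a2) - 1)) := by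
        have : 1 < Real.exp (((n : ℝ) + j) * a2) := Real.one_lt_exp_iff.2 (by positivity)
        have h5 : 0 < Real.exp (((n : ℝ) + j) * a2) - 1 := by linarith
        positivity
      have h5 : (j : ℝ) * (1 / (Real.exp ((j : ℝ) * a2) - 1)) ≤ 1 / a2 := by
        have h6 : (j : ℝ) * a2 ≤ Real.exp ((j : ℝ) * a2) - 1 := by
          have := Real.add_one_le_exp ((j : ℝ) * a2)
          linarith
        have h7 : 1 / (Real.exp ((j : ℝ) * a2) - 1) ≤ 1 / ((j : ℝ) * a2) :=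
          one_div_le_one_div_of_le (by positivity) h6
        calc (j : ℝ) * (1 / (Real.exp ((j : ℝ) * a2) - 1)) ≤ (j : ℝ) * (1 / ((j : ℝ) * a2)) :=
              mul_le_mul_of_nonneg_left h7 (by positivity)
          _ = 1 / a2 := by field_simp
      linarith
    have h4 : -LR n a2 ≤ ∑ _j ∈ Icc 2 n, 1 / a2 := by
      unfold LR
      rw [← Finset.sum_neg_distrib]
      exact Finset.sum_le_sum h3
    refine h4.trans (le_of_eq ?_)
    rw [Finset.sum_const, nsmul_eq_mul, hcard, ha2]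
    field_simp
  -- intermediate value
  have h3 := (isPreconnected_Ioi (a := (0 : ℝ))).intermediate_value (Set.mem_Ioi.2 ha20)
    (Set.mem_Ioi.2 ha10) (LR_cont n) ⟨h2, h1⟩
  obtain ⟨α, hα, h4⟩ := h3
  refine ⟨α, LR n α, hα, LD_eq n α, ?_⟩
  have h5 : LR n α = -v := by
    have : -LR n α = v := h4
    linarith
  rw [h5, abs_le]
  constructor <;> linarith

end V5helper5.QC
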